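import Pool.Agent.TH427.AR.AS4

/-!
# The multiplication group of a simple automorphic loop is almost simple

If `Q` is a finite simple automorphic loop which is not a group, then its multiplication group has
a nonabelian simple normal subgroup with trivial centralizer.
-/

set_option autoImplicit false

namespace Pool.Agent.Results.MP_52f71e_al.AlmostSimple

open Pool.Agent.TH427.AR

theorem result :
    ∀ (Q : Type) [Fintype Q] (mul : Q → Q → Q) (e : Q), AutLoop mul e → IsSimpleLoop mul →
      ¬ IsAssoc mul →
      ∃ N : Subgroup (Equiv.Perm Q), N ≤ MultGroup mul ∧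
        (∀ g ∈ MultGroup mul, ∀ n ∈ N, g * n * g⁻¹ ∈ N) ∧
        IsSimpleGroup N ∧ (∃ a ∈ N, ∃ b ∈ N, a * b ≠ b * a) ∧
        (∀ g ∈ MultGroup mul, (∀ n ∈ N, g * n = n * g) → g = 1) := by
  intro Q _ mul e h hs hna
  exact almost_simple h hs hna

end Pool.Agent.Results.MP_52f71e_al.AlmostSimple
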