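import Pool.Agent.TH427.AR.PubS

/-!
# The left multiplication group of a simple automorphic loop

For a finite simple automorphic loop which is not a group, the left multiplication group and the
right multiplication group are equal to the multiplication group, and the inner mapping group is
generated by the left inner mappings `z ↦ (xy) \ (x(yz))`.
-/

set_option autoImplicit false

namespace Pool.Agent.Results.MP_52f71e_al.LeftGenerates

open Pool.Agent.TH427.AR

theorem result :
    ∀ (Q : Type) [Fintype Q] (mul : Q → Q → Q) (e : Q), AutLoop mul e → IsSimpleLoop mul →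
      ¬ IsAssoc mul →
      LeftGroup mul = MultGroup mul ∧ RightGroup mul = MultGroup mul ∧
      InnGroup mul e = Subgroup.closure {g : Equiv.Perm Q |
        ∃ x y, ∀ z, mul (mul x y) (g z) = mul x (mul y z)} := by
  intro Q _ mul e h hs hna
  letI : H675HL.AL Q := h.toAL
  obtain ⟨h1, h2⟩ := Mlt_eq (A := toA Q) (simA_pub h hs) (na_pub h hna)
  refine ⟨?_, ?_, ?_⟩
  · rw [lg_eq h, mg_eq h, h1]
  · rw [rg_eq h, mg_eq h, h2]
  · have hset : {g : Equiv.Perm Q | ∃ x y, ∀ z, mul (mul x y) (g z) = mul x (mul y z)} =
        {g | ∃ x y, g = th (toA Q) x y} := by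
      ext g
      constructor
      · rintro ⟨x, y, hg⟩
        refine ⟨x, y, Equiv.ext fun z => ?_⟩
        show g z = ((toA Q).L ((toA Q).op x y))⁻¹ ((toA Q).op x ((toA Q).op y z))
        rw [eq_comm, Equiv.Perm.inv_eq_iff_eq]
        exact (hg z).symm
      · rintro ⟨x, y, rfl⟩
        refine ⟨x, y, fun z => ?_⟩
        exact Pool.Agent.W790.LG.ai ((toA Q).L ((toA Q).op x y)) _
    rw [hset]
    apply le_antisymm
    · rintro g ⟨hg, he⟩
      rw [mg_eq h] at hg
      exact inn_Lam (simA_pub h hs) (na_pub h hna) hg he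
    · rw [Subgroup.closure_le]
      rintro _ ⟨x, y, rfl⟩
      refine ⟨?_, ?_⟩
      · show th (toA Q) x y ∈ MultGroup mul
        rw [mg_eq h]
        exact th_Mlt x y
      · exact Pool.Agent.H687R3.AL.AL.aut_e (th_aut x y)

end Pool.Agent.Results.MP_52f71e_al.LeftGenerates
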