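import Pool.Agent.TH427.AR.PubS

/-!
# Simple automorphic loops whose multiplication group has a regular normal subgroup

A finite simple automorphic loop whose multiplication group has a normal subgroup acting regularly
on the loop is a group.
-/

set_option autoImplicit false

namespace Pool.Agent.Results.MP_52f71e_al.RegularNormal

open Pool.Agent.TH427.AR

theorem result :
    ∀ (Q : Type) [Fintype Q] (mul : Q → Q → Q) (e : Q), AutLoop mul e → IsSimpleLoop mul →
      (∃ N : Subgroup (Equiv.Perm Q), N ≤ MultGroup mul ∧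
        (∀ g ∈ MultGroup mul, ∀ n ∈ N, g * n * g⁻¹ ∈ N) ∧
        ∀ x : Q, ∃! n : Equiv.Perm Q, n ∈ N ∧ n e = x) →
      IsAssoc mul := by
  rintro Q _ mul e h hs ⟨N, h1, h2, h3⟩
  letI : H675HL.AL Q := h.toAL
  have hN : RN (toA Q) N := by
    rw [mg_eq h] at h1 h2
    refine ⟨h1, h2, ?_, ?_⟩
    · intro x
      obtain ⟨n, ⟨hn, he⟩, _⟩ := h3 x
      exact ⟨n, hn, he⟩
    · intro n hn he
      exact (h3 e).unique ⟨hn, he⟩ ⟨one_mem N, rfl⟩
  exact reg_assoc (Q := Q) hs hN

end Pool.Agent.Results.MP_52f71e_al.RegularNormal
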