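import Pool.Agent.TH427.AR.PubS

/-!
# Stabilizers in the inner mapping group of a simple automorphic loop

Let `Q` be a finite simple automorphic loop which is not a group and let `N` be a proper normal
subgroup of its inner mapping group.  Then for every `x ≠ 1` in `Q` there is an inner mapping which
fixes `x` and does not lie in `N`.
-/

set_option autoImplicit false

namespace Pool.Agent.Results.MP_52f71e_al.Stabilizers

open Pool.Agent.TH427.AR

theorem result :
    ∀ (Q : Type) [Fintype Q] (mul : Q → Q → Q) (e : Q), AutLoop mul e → IsSimpleLoop mul →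
      ¬ IsAssoc mul →
      ∀ N : Subgroup (Equiv.Perm Q), N < InnGroup mul e →
        (∀ h ∈ InnGroup mul e, ∀ n ∈ N, h * n * h⁻¹ ∈ N) →
        ∀ x : Q, x ≠ e → ∃ h ∈ InnGroup mul e, h x = x ∧ h ∉ N := by
  intro Q _ mul e h hs hna N hN hNn x hx
  letI : H675HL.AL Q := h.toAL
  obtain ⟨hle, hnle⟩ := hN
  obtain ⟨g, hg, hgN⟩ := Set.not_subset.1 hnle
  obtain ⟨k, hk, hke, hkx, hkN⟩ := stab_not_le (A := toA Q) (simA_pub h hs) (na_pub h hna)
    (N := N) (fun n hn => by
      have h1 := hle hn
      rw [← mg_eq h]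
      exact h1) (fun k hk hke n hn => by
      rw [← mg_eq h] at hk
      exact hNn k ⟨hk, hke⟩ n hn) (by
      refine ⟨g, ?_, hg.2, hgN⟩
      rw [← mg_eq h]
      exact hg.1) hx
  rw [← mg_eq h] at hk
  exact ⟨k, ⟨hk, hke⟩, hkx, hkN⟩

end Pool.Agent.Results.MP_52f71e_al.Stabilizers
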